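import Pool.Agent.Y869.CCN.Flip

set_option autoImplicit false
set_option linter.unusedSectionVars false

open Set

namespace Pool.Agent.Y869.CCN

open Pool.Agent.Results.MP_73a625_co.AllInfiniteSets

universe u

section order

variable {X : Type u} [LinearOrder X] [WellFoundedLT X]

theorem countable_of_not_big {z : Set X} (hz : ¬ Pool.Agent.Helper629.CCut.Big z) :
    z.Countable := by
  have h : z ⊆ ⋃ n : ℕ, {ξ | ξ ∈ z ∧ Pool.Agent.Helper629.CCut.tm z ξ ≤ n} := fun ξ hξ =>
    mem_iUnion.2 ⟨_, hξ, le_rfl⟩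
  exact (countable_iUnion fun n => (Pool.Agent.Helper629.CCut.finite_tm hz n).countable).mono h

end order

/-- one cross-cut of countable sets which meets `|X| ^ ℵ₀` classes modulo finite sets -/
theorem exists_family (X : Type u) [Infinite X] :
    ∃ (C : Set (Set X)) (z : (ℕ → X) → Set X), IsCrossCut C ∧
      (∀ A ∈ C, A.Countable ∧ A.Infinite ∧ Aᶜ.Infinite) ∧ (∀ g, z g ∈ C) ∧
      (∀ g h, g ≠ h → ¬ FinDiff (z g) (z h)) := by
  classical
  let Y : Type u := (Cardinal.mk X).ord.ToType
  have hY : Cardinal.mk Y = Cardinal.mk X := by simp [Y]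
  obtain ⟨E1⟩ : Nonempty (List X ≃ Y) := by
    rw [← Cardinal.eq, Cardinal.mk_list_eq_mk, hY]
  obtain ⟨E2⟩ : Nonempty (X ≃ ℕ × Y) := by
    rw [← Cardinal.eq, Cardinal.mk_prod, hY]
    simp
  have hYinf : Infinite Y := by
    rw [Cardinal.infinite_iff, hY]
    exact Cardinal.aleph0_le_mk X
  obtain ⟨y0, hy0⟩ : ∃ y0 : Y, ∀ y, y0 ≤ y := by
    obtain ⟨m, -, hm⟩ := (wellFounded_lt (α := Y)).has_min univ univ_nonempty
    exact ⟨m, fun y => not_lt.1 (hm y (mem_univ y))⟩
  let F : X → ℕ ×ₗ Y := fun x => toLex (E2 x)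
  have hF : Function.Injective F := fun x y h => E2.injective (toLex.injective h)
  let o : LinearOrder X := LinearOrder.lift' F hF
  have hlt : ∀ x y : X, x < y ↔ F x < F y := fun x y => Iff.rfl
  have hle : ∀ x y : X, x ≤ y ↔ F x ≤ F y := fun x y => Iff.rfl
  have hwf : WellFoundedLT X := by
    refine ⟨?_⟩
    have hwf1 : WellFounded (fun p q : ℕ ×ₗ Y => p < q) := wellFounded_lt
    exact InvImage.wf F hwf1
  -- the almost disjoint big sets
  let L : (ℕ → X) → ℕ → List X := fun g n => (List.range n).map g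
  let pt : (ℕ → X) → ℕ → ℕ → X := fun g i n => E2.symm (i, E1 (L g n))
  have hpt : ∀ g i n h j m, pt g i n = pt h j m → i = j ∧ n = m ∧ ∀ a < n, g a = h a := by
    intro g i n h j m he
    have h1 := E2.symm.injective he
    rw [Prod.mk.injEq] at h1
    obtain ⟨h2, h3⟩ := h1
    have h4 : (List.range n).map g = (List.range m).map h := E1.injective h3
    have h5 : n = m := by
      have := congrArg List.length h4
      simpa using this
    subst h5
    refine ⟨h2, rfl, fun a ha => ?_⟩
    exact (List.map_inj_left.1 h4) a (List.mem_range.2 ha)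
  let y : (ℕ → X) → Set X := fun g => {x | ∃ i n, i ≤ n ∧ x = pt g i n}
  have hbig : ∀ g, Pool.Agent.Helper629.CCut.Big (y g) := by
    intro g
    refine ⟨fun i => E2.symm (i, y0), ?_, ?_⟩
    · intro i j hij
      rw [hlt]
      simp only [F, Equiv.apply_symm_apply]
      rw [Prod.Lex.toLex_lt_toLex]
      exact Or.inl hij
    · intro i
      have hinj : Function.Injective (fun n : ℕ => pt g i (i + n)) := by
        intro m n hmn
        have := (hpt _ _ _ _ _ _ hmn).2.1
        omega
      apply (infinite_range_of_injective hinj).mono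
      rintro _ ⟨n, rfl⟩
      refine ⟨⟨i, i + n, by omega, rfl⟩, ?_, ?_⟩
      · rw [hle]
        simp only [F, pt, Equiv.apply_symm_apply]
        rw [Prod.Lex.toLex_le_toLex]
        exact Or.inr ⟨rfl, hy0 _⟩
      · rw [hle]
        simp only [F, pt, Equiv.apply_symm_apply]
        rw [Prod.Lex.toLex_le_toLex]
        exact Or.inl (Nat.lt_succ_self i)
  have had : ∀ g h, g ≠ h → (y g ∩ y h).Finite := by
    intro g h hne
    obtain ⟨m, hm⟩ : ∃ m, g m ≠ h m := by
      by_contra hcon
      push Not at hcon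
      exact hne (funext hcon)
    apply (((finite_Iic m).prod (finite_Iic m)).image (fun p : ℕ × ℕ => pt g p.1 p.2)).subset
    rintro x ⟨⟨i, n, hin, rfl⟩, ⟨j, k, hjk, he⟩⟩
    obtain ⟨-, -, h3⟩ := hpt _ _ _ _ _ _ he
    have hnm : n ≤ m := by
      by_contra hlt
      exact hm (h3 m (by omega))
    exact ⟨(i, n), ⟨mem_Iic.2 (by omega), mem_Iic.2 hnm⟩, rfl⟩
  have hbigu : Pool.Agent.Helper629.CCut.Big (univ : Set X) := by
    obtain ⟨x0⟩ := (inferInstance : Nonempty X)
    exact (hbig fun _ => x0).mono (subset_univ _)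
  have hz : ∀ g, ∃ z ∈ CC X, z ⊆ y g := by
    intro g
    obtain ⟨z, hz, -, h⟩ := interpolate (empty_subset (y g)) low_empty (Or.inl (hbig g))
    exact ⟨z, hz, h⟩
  choose z hzC hzy using hz
  refine ⟨CC X, z, isCrossCut_CC hbigu, fun A hA => ⟨countable_of_not_big hA.1,
    infinite_of_mem hA, compl_infinite_of_mem hbigu hA⟩, hzC, ?_⟩
  intro g h hne hfd
  apply infinite_of_mem (hzC g)
  apply (hfd.1.union (had g h hne)).subset
  intro x hx
  by_cases hxh : x ∈ z h
  · exact Or.inr ⟨hzy g hx, hzy h hxh⟩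
  · exact Or.inl ⟨hx, hxh⟩

open Cardinal

theorem count_countable (X : Type u) [Infinite X] :
    #{C : Set (Set X) // IsCrossCut C ∧ ¬ IsTrivial C ∧
      ∀ A ∈ C, A.Countable ∧ A.Infinite ∧ Aᶜ.Infinite} = 2 ^ (#X ^ ℵ₀) := by
  classical
  apply le_antisymm
  · -- a family of countable sets
    have h1 : #{t : Set X // #t ≤ ℵ₀} ≤ #X ^ (ℵ₀ : Cardinal.{u}) := by
      refine (mk_bounded_set_le X ℵ₀).trans ?_
      rw [max_eq_left (aleph0_le_mk X)]
    have h2 : #{C : Set (Set X) // IsCrossCut C ∧ ¬ IsTrivial C ∧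
        ∀ A ∈ C, A.Countable ∧ A.Infinite ∧ Aᶜ.Infinite} ≤ #(Set {t : Set X // #t ≤ ℵ₀}) := by
      refine mk_le_of_injective (f := fun C => {t | t.1 ∈ C.1}) ?_
      intro C D hCD
      apply Subtype.ext
      ext A
      constructor
      · intro hA
        have hc : #A ≤ ℵ₀ := by
          rw [mk_le_aleph0_iff]
          exact (C.2.2.2 A hA).1.to_subtype
        have : (⟨A, hc⟩ : {t : Set X // #t ≤ ℵ₀}) ∈ {t : {t : Set X // #t ≤ ℵ₀} | t.1 ∈ C.1} := hA
        have h3 : {t : {t : Set X // #t ≤ ℵ₀} | t.1 ∈ C.1} = {t | t.1 ∈ D.1} := hCD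
        rw [h3] at this
        exact this
      · intro hA
        have hc : #A ≤ ℵ₀ := by
          rw [mk_le_aleph0_iff]
          exact (D.2.2.2 A hA).1.to_subtype
        have : (⟨A, hc⟩ : {t : Set X // #t ≤ ℵ₀}) ∈ {t : {t : Set X // #t ≤ ℵ₀} | t.1 ∈ D.1} := hA
        have h3 : {t : {t : Set X // #t ≤ ℵ₀} | t.1 ∈ C.1} = {t | t.1 ∈ D.1} := hCD
        rw [← h3] at this
        exact this
    refine h2.trans ?_
    rw [mk_set]
    exact power_le_power_left two_ne_zero h1
  · obtain ⟨C, z, hC, hinf, hzC, hfd⟩ := exists_family X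
    let c : Set (ℕ → X) → Set X → ℤ := fun S w => if ∃ g ∈ S, FinDiff (z g) w then 1 else 0
    have hc : ∀ S, ∀ v w, FinDiff v w → c S v = c S w := by
      intro S v w hvw
      have : (∃ g ∈ S, FinDiff (z g) v) ↔ ∃ g ∈ S, FinDiff (z g) w :=
        ⟨fun ⟨g, h1, h2⟩ => ⟨g, h1, h2.trans hvw⟩, fun ⟨g, h1, h2⟩ => ⟨g, h1, h2.trans hvw.symm⟩⟩
      simp only [c, this]
    have hmem : ∀ S, ∀ A ∈ shift C (c S), A.Countable ∧ A.Infinite ∧ Aᶜ.Infinite := by
      rintro S A ⟨v, hv, h1, -⟩
      refine ⟨?_, infinite_of_fin (hinf v hv).2.1 h1, compl_infinite_of_fin (hinf v hv).2.2 h1⟩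
      apply ((hinf v hv).1.union h1.2.countable).mono
      intro x hx
      by_cases h : x ∈ v
      · exact Or.inl h
      · exact Or.inr ⟨hx, h⟩
    have hcross : ∀ S, IsCrossCut (shift C (c S)) := fun S =>
      shift_isCrossCut hC (fun A hA => (hinf A hA).2) (hc S)
    have hne : ∀ S, ∃ A, A ∈ shift C (c S) := by
      intro S
      by_contra hcon
      push Not at hcon
      have h1 := (hcross S).1.2 (t := {∅}) (by
        intro a ha b hb hab
        exact absurd (by rw [mem_singleton_iff.1 ha, mem_singleton_iff.1 hb]) hab)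
        (fun A hA => absurd hA (hcon A))
      exact hcon ∅ (by rw [h1]; rfl)
    have htriv : ∀ S, ¬ IsTrivial (shift C (c S)) := by
      intro S
      obtain ⟨A, hA⟩ := hne S
      exact not_trivial_of hA (hmem S A hA).2.1 (hmem S A hA).2.2
    have h3 : #(Set (ℕ → X)) = 2 ^ (#X ^ ℵ₀) := by
      rw [mk_set]
      congr 1
      simp
    rw [← h3]
    refine mk_le_of_injective (f := fun S => ⟨shift C (c S), hcross S, htriv S, hmem S⟩) ?_
    have hiff : ∀ S g, z g ∈ shift C (c S) ↔ g ∉ S := by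
      intro S g
      constructor
      · rintro ⟨v, hv, h1, h2⟩ hg
        have h4 : c S v = 1 := by
          simp only [c]
          rw [if_pos ⟨g, hg, h1.symm⟩]
        rw [level_eq hC hv (hzC g) h1, h4] at h2
        exact absurd h2 (by norm_num)
      · intro hg
        refine ⟨z g, hzC g, FinDiff.refl _, ?_⟩
        simp only [c]
        rw [lv_self, if_neg]
        rintro ⟨h, hh, h1⟩
        by_cases e : h = g
        · exact hg (e ▸ hh)
        · exact hfd h g e h1
    intro S T hST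
    have h5 : shift C (c S) = shift C (c T) := congrArg Subtype.val hST
    ext g
    have := hiff S g
    rw [h5, hiff T g] at this
    tauto

theorem count_all (X : Type u) [Infinite X] [Countable X] :
    #{C : Set (Set X) // IsCrossCut C ∧ ¬ IsTrivial C} = 2 ^ ((2 : Cardinal.{u}) ^ ℵ₀) := by
  have hX : #X = ℵ₀ := mk_eq_aleph0 X
  apply le_antisymm
  · have h1 : #{C : Set (Set X) // IsCrossCut C ∧ ¬ IsTrivial C} ≤ #(Set (Set X)) :=
      mk_subtype_le _
    rwa [mk_set, mk_set, hX] at h1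
  · have h1 := count_countable X
    rw [hX, aleph0_power_aleph0, ← two_power_aleph0] at h1
    rw [← h1]
    refine mk_le_of_injective (f := fun C => ⟨C.1, C.2.1, C.2.2.1⟩) ?_
    intro C D hCD
    have h2 : C.1 = D.1 := by
      have := Subtype.ext_iff.1 hCD
      exact this
    exact Subtype.ext h2

end Pool.Agent.Y869.CCN
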