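import Pool.Agent.Results.MP_73a625_co.AllInfiniteSets

set_option autoImplicit false
set_option linter.unusedSectionVars false

open Set

namespace Pool.Agent.Y869.CCN

open Pool.Agent.Results.MP_73a625_co.AllInfiniteSets

universe u

variable {X : Type u}

/-- `z` and `w` differ in finitely many points only. -/
def FinDiff (z w : Set X) : Prop := (z \ w).Finite ∧ (w \ z).Finite

/-- number of points by which `w` is larger than `z` (for sets with finite difference). -/
noncomputable def lv (z w : Set X) : ℤ := ((w \ z).ncard : ℤ) - ((z \ w).ncard : ℤ)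

/-- the family of the sets that have `c z` points more than some `z` of `C`. -/
def shift (C : Set (Set X)) (c : Set X → ℤ) : Set (Set X) :=
  {w | ∃ z ∈ C, FinDiff z w ∧ lv z w = c z}

theorem FinDiff.refl (z : Set X) : FinDiff z z := by simp [FinDiff]

theorem FinDiff.symm {z w : Set X} (h : FinDiff z w) : FinDiff w z := ⟨h.2, h.1⟩

theorem FinDiff.trans {z w v : Set X} (h : FinDiff z w) (h' : FinDiff w v) : FinDiff z v := by
  constructor
  · apply (h.1.union h'.1).subset
    rintro x ⟨h1, h2⟩
    by_cases h3 : x ∈ w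
    · exact Or.inr ⟨h3, h2⟩
    · exact Or.inl ⟨h1, h3⟩
  · apply (h.2.union h'.2).subset
    rintro x ⟨h1, h2⟩
    by_cases h3 : x ∈ w
    · exact Or.inl ⟨h3, h2⟩
    · exact Or.inr ⟨h1, h3⟩

theorem lv_eq {z w D : Set X} (hD : D.Finite) (h1 : z \ w ⊆ D) (h2 : w \ z ⊆ D) :
    lv z w = ((w ∩ D).ncard : ℤ) - ((z ∩ D).ncard : ℤ) := by
  have e1 : w ∩ D = (w \ z) ∪ (w ∩ z ∩ D) := by
    ext x
    constructor
    · rintro ⟨h3, h4⟩
      by_cases h5 : x ∈ z
      · exact Or.inr ⟨⟨h3, h5⟩, h4⟩
      · exact Or.inl ⟨h3, h5⟩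
    · rintro (h3 | h3)
      · exact ⟨h3.1, h2 h3⟩
      · exact ⟨h3.1.1, h3.2⟩
  have e2 : z ∩ D = (z \ w) ∪ (w ∩ z ∩ D) := by
    ext x
    constructor
    · rintro ⟨h3, h4⟩
      by_cases h5 : x ∈ w
      · exact Or.inr ⟨⟨h5, h3⟩, h4⟩
      · exact Or.inl ⟨h3, h5⟩
    · rintro (h3 | h3)
      · exact ⟨h3.1, h1 h3⟩
      · exact ⟨h3.1.2, h3.2⟩
  have f1 : (w ∩ D).ncard = (w \ z).ncard + (w ∩ z ∩ D).ncard := by
    rw [e1]
    apply ncard_union_eq _ (hD.subset h2) (hD.subset inter_subset_right)
    rw [Set.disjoint_left]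
    rintro x ⟨_, h3⟩ ⟨⟨_, h4⟩, _⟩
    exact h3 h4
  have f2 : (z ∩ D).ncard = (z \ w).ncard + (w ∩ z ∩ D).ncard := by
    rw [e2]
    apply ncard_union_eq _ (hD.subset h1) (hD.subset inter_subset_right)
    rw [Set.disjoint_left]
    rintro x ⟨_, h3⟩ ⟨⟨h4, _⟩, _⟩
    exact h3 h4
  unfold lv
  rw [f1, f2]
  push_cast
  ring

theorem lv_trans {z w v : Set X} (h : FinDiff z w) (h' : FinDiff w v) :
    lv z v = lv z w + lv w v := by
  have h3 := h.trans h'
  set D := ((z \ w) ∪ (w \ z)) ∪ (((w \ v) ∪ (v \ w)) ∪ ((z \ v) ∪ (v \ z))) with hDdef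
  have hD : D.Finite := (h.1.union h.2).union ((h'.1.union h'.2).union (h3.1.union h3.2))
  rw [lv_eq (z := z) (w := v) hD (fun x hx => Or.inr (Or.inr (Or.inl hx)))
      (fun x hx => Or.inr (Or.inr (Or.inr hx))),
    lv_eq (z := z) (w := w) hD (fun x hx => Or.inl (Or.inl hx)) (fun x hx => Or.inl (Or.inr hx)),
    lv_eq (z := w) (w := v) hD (fun x hx => Or.inr (Or.inl (Or.inl hx)))
      (fun x hx => Or.inr (Or.inl (Or.inr hx)))]
  ring

theorem lv_symm (z w : Set X) : lv w z = - lv z w := by
  unfold lv; ring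

theorem lv_self (z : Set X) : lv z z = 0 := by unfold lv; ring

theorem lv_pos {z w : Set X} (h : z ⊆ w) (hne : z ≠ w) (hf : FinDiff z w) : 0 < lv z w := by
  unfold lv
  have h1 : z \ w = ∅ := sdiff_eq_empty.2 h
  have h2 : (w \ z).Nonempty := by
    rw [nonempty_iff_ne_empty]
    intro h3
    exact hne (Subset.antisymm h (sdiff_eq_empty.1 h3))
  rw [h1, ncard_empty]
  have := (ncard_pos hf.2).2 h2
  push_cast
  omega

/-- adding points -/
theorem exists_add {u y : Set X} {k : ℕ} (h : (k : ℕ∞) ≤ (y \ u).encard) (huy : u ⊆ y) :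
    ∃ v, u ⊆ v ∧ v ⊆ y ∧ FinDiff u v ∧ lv u v = k := by
  obtain ⟨t, ht, hk⟩ := exists_subset_encard_eq h
  have hfin : t.Finite := finite_of_encard_eq_coe hk
  have e1 : (u ∪ t) \ u = t := by
    ext x
    constructor
    · rintro ⟨h1 | h1, h2⟩
      · exact absurd h1 h2
      · exact h1
    · intro h1
      exact ⟨Or.inr h1, (ht h1).2⟩
  have e2 : u \ (u ∪ t) = ∅ := sdiff_eq_empty.2 subset_union_left
  refine ⟨u ∪ t, subset_union_left, union_subset huy (ht.trans sdiff_subset), ⟨?_, ?_⟩, ?_⟩
  · rw [e2]; exact finite_empty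
  · rw [e1]; exact hfin
  · unfold lv
    rw [e1, e2, ncard_empty, ncard, hk]
    simp

/-- removing points -/
theorem exists_sub {x u : Set X} {k : ℕ} (h : (k : ℕ∞) ≤ (u \ x).encard) (hxu : x ⊆ u) :
    ∃ v, x ⊆ v ∧ v ⊆ u ∧ FinDiff u v ∧ lv u v = -(k : ℤ) := by
  obtain ⟨t, ht, hk⟩ := exists_subset_encard_eq h
  have hfin : t.Finite := finite_of_encard_eq_coe hk
  have e1 : u \ (u \ t) = t := by
    ext y
    constructor
    · rintro ⟨h1, h2⟩
      by_contra h3
      exact h2 ⟨h1, h3⟩
    · intro h1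
      exact ⟨(ht h1).1, fun h2 => h2.2 h1⟩
  have e2 : (u \ t) \ u = ∅ := sdiff_eq_empty.2 sdiff_subset
  refine ⟨u \ t, fun y hy => ⟨hxu hy, fun h1 => (ht h1).2 hy⟩, sdiff_subset, ⟨?_, ?_⟩, ?_⟩
  · rw [e1]; exact hfin
  · rw [e2]; exact finite_empty
  · unfold lv
    rw [e1, e2, ncard_empty, ncard, hk]
    simp

/-- adjusting the number of points inside an interval with two infinite gaps -/
theorem exists_adj {x u y : Set X} (hxu : x ⊆ u) (huy : u ⊆ y) (h1 : (u \ x).Infinite)
    (h2 : (y \ u).Infinite) (m : ℤ) :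
    ∃ v, x ⊆ v ∧ v ⊆ y ∧ FinDiff u v ∧ lv u v = m := by
  rcases le_total 0 m with hm | hm
  · obtain ⟨v, a, b, c, d⟩ := exists_add (u := u) (y := y) (k := m.toNat)
      (by rw [h2.encard_eq]; exact le_top) huy
    exact ⟨v, hxu.trans a, b, c, by rw [d]; omega⟩
  · obtain ⟨v, a, b, c, d⟩ := exists_sub (x := x) (u := u) (k := (-m).toNat)
      (by rw [h1.encard_eq]; exact le_top) hxu
    exact ⟨v, a, b.trans huy, c, by rw [d]; omega⟩

section cross

variable {C : Set (Set X)}

theorem not_lt_of_mem (hC : IsCrossCut C) {z w : Set X} (hz : z ∈ C) (hw : w ∈ C) : ¬ z < w := by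
  intro h
  exact hC.1.1 hz hw h.ne h.le

/-- every set which is not in a maximal antichain is comparable with a member -/
theorem comparable (hC : IsCrossCut C) {w : Set X} (hw : w ∉ C) :
    (∃ z ∈ C, w < z) ∨ (∃ z ∈ C, z < w) := by
  by_contra hcon
  push Not at hcon
  obtain ⟨h1, h2⟩ := hcon
  apply hw
  have h3 : IsAntichain (· ≤ ·) (insert w C) := by
    apply hC.1.1.insert
    · intro b hb hne hle
      exact h2 b hb (lt_of_le_of_ne (by simpa using hle) (by first | exact hne | exact hne.symm))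
    · intro b hb hne hle
      exact h1 b hb (lt_of_le_of_ne (by simpa using hle) (by first | exact hne | exact hne.symm))
  have h4 := hC.1.2 h3 (subset_insert _ _)
  rw [h4]
  exact mem_insert _ _

/-- one exchange -/
theorem exchange_one (hC : IsCrossCut C) {z : Set X} (hz : z ∈ C) {p q : X} (hq : q ∈ z)
    (hp : p ∉ z) : insert p (z \ {q}) ∈ C := by
  have hpq : p ≠ q := fun h => hp (h ▸ hq)
  set w := insert p (z \ {q}) with hw
  by_contra hcon
  have hqw : q ∉ w := by
    rintro (h | h)
    · exact hpq h.symm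
    · exact h.2 rfl
  have hzy : z < insert p z := by
    refine lt_of_le_of_ne (subset_insert _ _) (fun h => hp ?_)
    rw [h]
    exact mem_insert _ _
  have hxz : z \ {q} < z := by
    refine lt_of_le_of_ne sdiff_subset (fun h => ?_)
    have := hq
    rw [← h] at this
    exact this.2 rfl
  rcases comparable hC hcon with ⟨c, hc, h⟩ | ⟨c, hc, h⟩
  · obtain ⟨v, hv, h1, h2⟩ := hC.2 w c (insert p z) z h hc hzy hz
      (insert_subset_insert sdiff_subset)
    by_cases hqv : q ∈ v
    · have : v = insert p z := by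
        apply Subset.antisymm h2
        rintro x (hx | hx)
        · rw [hx]; exact h1 (mem_insert _ _)
        · by_cases hxq : x = q
          · rw [hxq]; exact hqv
          · exact h1 (mem_insert_of_mem _ ⟨hx, hxq⟩)
      rw [this] at hv
      exact not_lt_of_mem hC hz hv hzy
    · have : v = w := by
        apply Subset.antisymm _ h1
        intro x hx
        rcases h2 hx with h3 | h3
        · rw [h3]; exact mem_insert _ _
        · exact mem_insert_of_mem _ ⟨h3, fun h4 => hqv (by rw [← (mem_singleton_iff.1 h4)]; exact hx)⟩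
      exact hcon (this ▸ hv)
  · obtain ⟨v, hv, h1, h2⟩ := hC.2 (z \ {q}) z w c hxz hz h hc (subset_insert _ _)
    by_cases hpv : p ∈ v
    · have : v = w := by
        apply Subset.antisymm h2
        exact insert_subset hpv h1
      exact hcon (this ▸ hv)
    · have : v = z \ {q} := by
        apply Subset.antisymm _ h1
        intro x hx
        rcases h2 hx with h3 | h3
        · exact absurd (h3 ▸ hx) hpv
        · exact h3
      rw [this] at hv
      exact not_lt_of_mem hC hv hz hxz

/-- a cross-cut contains with `z` all sets with a finite difference and the same number of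
points -/
theorem level_mem (hC : IsCrossCut C) : ∀ (n : ℕ) (z w : Set X), z ∈ C → FinDiff z w →
    (w \ z).ncard = n → lv z w = 0 → w ∈ C := by
  intro n
  induction n with
  | zero =>
    intro z w hz hf hn hl
    unfold lv at hl
    rw [hn] at hl
    have h1 : (z \ w).ncard = 0 := by omega
    rw [ncard_eq_zero hf.1, sdiff_eq_empty] at h1
    rw [ncard_eq_zero hf.2, sdiff_eq_empty] at hn
    rwa [Subset.antisymm hn h1]
  | succ n ih =>
    intro z w hz hf hn hl
    have hl' := hl
    unfold lv at hl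
    rw [hn] at hl
    have h1 : (z \ w).ncard = n + 1 := by omega
    obtain ⟨p, hp⟩ : (w \ z).Nonempty := by
      rw [← ncard_pos hf.2]; omega
    obtain ⟨q, hq⟩ : (z \ w).Nonempty := by
      rw [← ncard_pos hf.1]; omega
    have hpq : p ≠ q := fun h => hp.2 (h ▸ hq.1)
    have hz1 := exchange_one hC hz hq.1 hp.2
    set z1 := insert p (z \ {q}) with hz1d
    have e1 : w \ z1 = (w \ z) \ {p} := by
      ext x
      constructor
      · rintro ⟨h2, h3⟩
        refine ⟨⟨h2, fun h4 => h3 (Or.inr ⟨h4, fun h5 => hq.2 ?_⟩)⟩, fun h4 => h3 (Or.inl h4)⟩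
        rw [← mem_singleton_iff.1 h5]; exact h2
      · rintro ⟨⟨h2, h3⟩, h4⟩
        refine ⟨h2, ?_⟩
        rintro (h5 | h5)
        · exact h4 h5
        · exact h3 h5.1
    have e2 : z1 \ w = (z \ w) \ {q} := by
      ext x
      constructor
      · rintro ⟨h2 | h2, h3⟩
        · rw [h2] at h3; exact absurd hp.1 h3
        · exact ⟨⟨h2.1, h3⟩, h2.2⟩
      · rintro ⟨⟨h2, h3⟩, h4⟩
        exact ⟨Or.inr ⟨h2, h4⟩, h3⟩
    have c1 : (w \ z1).ncard = n := by
      rw [e1, ncard_sdiff_singleton_of_mem hp, hn]; rfl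
    have c2 : (z1 \ w).ncard = n := by
      rw [e2, ncard_sdiff_singleton_of_mem hq, h1]; rfl
    refine ih z1 w hz1 ⟨?_, ?_⟩ c1 ?_
    · rw [e2]; exact hf.1.subset sdiff_subset
    · rw [e1]; exact hf.2.subset sdiff_subset
    · unfold lv; rw [c1, c2]; ring

theorem mem_of_level (hC : IsCrossCut C) {z w : Set X} (hz : z ∈ C) (hf : FinDiff z w)
    (hl : lv z w = 0) : w ∈ C := level_mem hC _ z w hz hf rfl hl

/-- two members with finite difference have the same number of points -/
theorem level_eq (hC : IsCrossCut C) {z w : Set X} (hz : z ∈ C) (hw : w ∈ C)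
    (hf : FinDiff z w) : lv z w = 0 := by
  -- it is enough to exclude `0 < lv z w`
  have key : ∀ z w : Set X, z ∈ C → w ∈ C → FinDiff z w → ¬ 0 < lv z w := by
    intro z w hz hw hf hpos
    -- remove `lv z w` points from `w`
    have h0 : lv z w ≤ ((w \ z).ncard : ℤ) := by
      unfold lv; omega
    obtain ⟨v, h1, h2, h3, h4⟩ := exists_sub (x := w ∩ z) (u := w) (k := (lv z w).toNat) (by
      have e : w \ (w ∩ z) = w \ z := by
        ext x; simp only [mem_sdiff, mem_inter_iff]; tauto
      rw [e, ← hf.2.cast_ncard_eq]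
      exact_mod_cast (by omega : (lv z w).toNat ≤ (w \ z).ncard)) inter_subset_left
    have h5 : lv z v = 0 := by
      rw [lv_trans hf h3, h4]; omega
    have hv := mem_of_level hC hz (hf.trans h3) h5
    have hne : v ≠ w := by
      rintro rfl
      rw [lv_self] at h4
      omega
    exact not_lt_of_mem hC hv hw (lt_of_le_of_ne h2 hne)
  have h1 := key z w hz hw hf
  have h2 := key w z hw hz hf.symm
  rw [lv_symm] at h2
  omega

/-- if `z \ z'` is finite for two members then `z' \ z` is finite too -/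
theorem fin_of (hC : IsCrossCut C) {z z' : Set X} (hz : z ∈ C) (hz' : z' ∈ C)
    (h : (z \ z').Finite) : FinDiff z z' := by
  refine ⟨h, ?_⟩
  by_contra hinf
  have hinf : (z' \ z).Infinite := hinf
  -- remove the points of `z \ z'` and add as many points of `z' \ z`
  have e0 : z \ (z ∩ z') = z \ z' := by
    ext x; simp only [mem_sdiff, mem_inter_iff]; tauto
  have f1 : FinDiff z (z ∩ z') := by
    constructor
    · rw [e0]; exact h
    · rw [sdiff_eq_empty.2 inter_subset_left]; exact finite_empty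
  have l1 : lv z (z ∩ z') = -((z \ z').ncard : ℤ) := by
    unfold lv
    rw [e0, sdiff_eq_empty.2 inter_subset_left, ncard_empty]
    simp
  have e1 : z' \ (z ∩ z') = z' \ z := by
    ext x; simp only [mem_sdiff, mem_inter_iff]; tauto
  obtain ⟨v, h1, h2, h3, h4⟩ := exists_add (u := z ∩ z') (y := z') (k := (z \ z').ncard)
    (by rw [e1, hinf.encard_eq]; exact le_top) inter_subset_right
  have hv : v ∈ C := by
    apply mem_of_level hC hz (f1.trans h3)
    rw [lv_trans f1 h3, l1, h4]; ring
  have hne : v ≠ z' := by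
    rintro rfl
    apply hinf
    have := h3.2
    rwa [e1] at this
  exact not_lt_of_mem hC hv hz' (lt_of_le_of_ne h2 hne)

variable {c : Set X → ℤ}

theorem shift_below (hC : IsCrossCut C)
    (hc : ∀ z w, FinDiff z w → c z = c w) {x x' z : Set X} (hx' : x' ∈ shift C c) (h : x < x')
    (hz : z ∈ C) (hzx : FinDiff z x) : lv z x < c z := by
  obtain ⟨z', hz', h1, h2⟩ := hx'
  have hfin : (z \ z').Finite := by
    apply (hzx.1.union h1.2).subset
    rintro a ⟨h3, h4⟩
    by_cases h5 : a ∈ x
    · exact Or.inr ⟨h.le h5, h4⟩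
    · exact Or.inl ⟨h3, h5⟩
  have hzz := fin_of hC hz hz' hfin
  have hl := level_eq hC hz hz' hzz
  have hxx' : FinDiff x x' := hzx.symm.trans (hzz.trans h1)
  have h6 := lv_pos h.le h.ne hxx'
  have h7 := lv_trans (hzz.trans h1) hxx'.symm
  rw [lv_trans hzz h1, hl, lv_symm x x', h2] at h7
  rw [hc z z' hzz]
  omega

theorem shift_above (hC : IsCrossCut C)
    (hc : ∀ z w, FinDiff z w → c z = c w) {y y' z : Set X} (hy' : y' ∈ shift C c) (h : y' < y)
    (hz : z ∈ C) (hzy : FinDiff z y) : c z < lv z y := by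
  obtain ⟨z', hz', h1, h2⟩ := hy'
  have hfin : (z' \ z).Finite := by
    apply (h1.1.union hzy.2).subset
    rintro a ⟨h3, h4⟩
    by_cases h5 : a ∈ y'
    · exact Or.inr ⟨h.le h5, h4⟩
    · exact Or.inl ⟨h3, h5⟩
  have hzz := (fin_of hC hz' hz hfin).symm
  have hl := level_eq hC hz hz' hzz
  have hyy' : FinDiff y' y := (hzz.trans h1).symm.trans hzy
  have h6 := lv_pos h.le h.ne hyy'
  have h7 := lv_trans (hzz.trans h1) hyy'
  rw [lv_trans hzz h1, hl, h2] at h7
  rw [hc z z' hzz]
  omega

theorem infinite_of_fin {z w : Set X} (h : z.Infinite) (hf : FinDiff z w) : w.Infinite := by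
  intro hw
  apply h
  apply (hw.union hf.1).subset
  intro x hx
  by_cases h1 : x ∈ w
  · exact Or.inl h1
  · exact Or.inr ⟨hx, h1⟩

theorem compl_infinite_of_fin {z w : Set X} (h : zᶜ.Infinite) (hf : FinDiff z w) :
    wᶜ.Infinite := by
  intro hw
  apply h
  apply (hw.union hf.2).subset
  intro x hx
  by_cases h1 : x ∈ w
  · exact Or.inr ⟨h1, hx⟩
  · exact Or.inl h1

/-- **Shifting a cross-cut.**  All members of `C` being infinite with infinite complement, the
levels of `C` in the classes modulo finite sets may be shifted independently. -/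
theorem shift_isCrossCut (hC : IsCrossCut C) (hinf : ∀ A ∈ C, A.Infinite ∧ Aᶜ.Infinite)
    (hc : ∀ z w, FinDiff z w → c z = c w) : IsCrossCut (shift C c) := by
  have univ_sub : ∀ u : Set X, u ⊆ (univ : Set X) := fun u => subset_univ u
  have hcompl : ∀ u : Set X, (univ : Set X) \ u = uᶜ := fun u => (compl_eq_univ_sdiff u).symm
  -- adjusting a member inside the whole power set, keeping a lower bound
  refine ⟨⟨?_, ?_⟩, ?_⟩
  · intro w1 h1 w2 h2 hne hle
    have hlt : w1 < w2 := lt_of_le_of_ne hle hne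
    obtain ⟨z, hz, h3, h4⟩ := h1
    have := shift_below hC hc h2 hlt hz h3
    omega
  · intro t ht hsub
    apply Subset.antisymm hsub
    intro w hw
    by_contra hcon
    by_cases hK : ∃ z ∈ C, FinDiff z w
    · obtain ⟨z, hz, hzw⟩ := hK
      have hwi := infinite_of_fin (hinf z hz).1 hzw
      have hwc := compl_infinite_of_fin (hinf z hz).2 hzw
      have hne : lv z w ≠ c z := fun h => hcon ⟨z, hz, hzw, h⟩
      obtain ⟨v, h1, h2, h3, h4⟩ : ∃ v, (w ⊆ v ∨ v ⊆ w) ∧ v ≠ w ∧ FinDiff w v ∧
          lv w v = c z - lv z w := by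
        rcases lt_or_gt_of_ne hne with h | h
        · obtain ⟨v, a, -, b, d⟩ := exists_add (u := w) (y := univ) (k := (c z - lv z w).toNat)
            (by rw [hcompl, hwc.encard_eq]; exact le_top) (subset_univ _)
          refine ⟨v, Or.inl a, ?_, b, by rw [d]; omega⟩
          rintro rfl
          rw [lv_self] at d; omega
        · obtain ⟨v, -, a, b, d⟩ := exists_sub (x := ∅) (u := w) (k := (lv z w - c z).toNat)
            (by rw [sdiff_empty, hwi.encard_eq]; exact le_top) (empty_subset _)
          refine ⟨v, Or.inr a, ?_, b, by rw [d]; omega⟩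
          rintro rfl
          rw [lv_self] at d; omega
      have hv : v ∈ shift C c := ⟨z, hz, hzw.trans h3, by rw [lv_trans hzw h3, h4]; ring⟩
      rcases h1 with h1 | h1
      · exact ht hw (hsub hv) h2.symm h1
      · exact ht (hsub hv) hw h2 h1
    · have hwC : w ∉ C := fun h => hK ⟨w, h, FinDiff.refl w⟩
      rcases comparable hC hwC with ⟨z, hz, h⟩ | ⟨z, hz, h⟩
      · have hzw : (z \ w).Infinite := by
          intro hfin
          refine hK ⟨z, hz, hfin, ?_⟩
          rw [sdiff_eq_empty.2 h.le]; exact finite_empty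
        obtain ⟨v, h1, -, h3, h4⟩ := exists_adj (x := w) (u := z) (y := univ) h.le (subset_univ _)
          hzw (by rw [hcompl]; exact (hinf z hz).2) (c z)
        have hv : v ∈ shift C c := ⟨z, hz, h3, h4⟩
        refine ht hw (hsub hv) ?_ h1
        rintro rfl
        exact hK ⟨z, hz, h3⟩
      · have hwz : (w \ z).Infinite := by
          intro hfin
          refine hK ⟨z, hz, ?_, hfin⟩
          rw [sdiff_eq_empty.2 h.le]; exact finite_empty
        obtain ⟨v, -, h2, h3, h4⟩ := exists_adj (x := ∅) (u := z) (y := w) (empty_subset _) h.le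
          (by rw [sdiff_empty]; exact (hinf z hz).1) hwz (c z)
        have hv : v ∈ shift C c := ⟨z, hz, h3, h4⟩
        refine ht (hsub hv) hw ?_ h2
        rintro rfl
        exact hK ⟨z, hz, h3⟩
  · intro x x' y y' hx hx' hy hy' hxy
    by_cases hKx : ∃ z ∈ C, FinDiff z x
    · obtain ⟨z, hz, hzx⟩ := hKx
      have h1 := shift_below hC hc hx' hx hz hzx
      obtain ⟨v, a, b, d, e⟩ := exists_add (u := x) (y := y) (k := (c z - lv z x).toNat) (by
        by_cases hfin : (y \ x).Finite
        · have hxyf : FinDiff x y := ⟨by rw [sdiff_eq_empty.2 hxy]; exact finite_empty, hfin⟩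
          have h2 := shift_above hC hc hy' hy hz (hzx.trans hxyf)
          rw [lv_trans hzx hxyf] at h2
          have h3 : lv x y = ((y \ x).ncard : ℤ) := by
            unfold lv
            rw [sdiff_eq_empty.2 hxy, ncard_empty]
            simp
          rw [← hfin.cast_ncard_eq]
          exact_mod_cast (by omega : (c z - lv z x).toNat ≤ (y \ x).ncard)
        · rw [Set.Infinite.encard_eq hfin]; exact le_top) hxy
      exact ⟨v, ⟨z, hz, hzx.trans d, by rw [lv_trans hzx d, e]; omega⟩, a, b⟩
    · have hyx : (y \ x).Infinite ∨ ¬ ∃ z ∈ C, FinDiff z y := by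
        by_cases hKy : ∃ z ∈ C, FinDiff z y
        · left
          intro hfin
          obtain ⟨z, hz, hzy⟩ := hKy
          exact hKx ⟨z, hz, hzy.trans ⟨hfin, by rw [sdiff_eq_empty.2 hxy]; exact finite_empty⟩⟩
        · exact Or.inr hKy
      by_cases hKy : ∃ z ∈ C, FinDiff z y
      · have hyx' : (y \ x).Infinite := hyx.resolve_right (fun h => h hKy)
        obtain ⟨z, hz, hzy⟩ := hKy
        have h1 := shift_above hC hc hy' hy hz hzy
        obtain ⟨v, a, b, d, e⟩ := exists_sub (x := x) (u := y) (k := (lv z y - c z).toNat)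
          (by rw [hyx'.encard_eq]; exact le_top) hxy
        exact ⟨v, ⟨z, hz, hzy.trans d, by rw [lv_trans hzy d, e]; omega⟩, a, b⟩
      · -- neither class contains a member of `C`
        have hlow : ∃ v ∈ C, x < v := by
          obtain ⟨z', hz', h1, h2⟩ := hx'
          have hinf' : (x' \ x).Infinite := by
            intro hfin
            exact hKx ⟨z', hz', h1.trans ⟨hfin, by
              rw [sdiff_eq_empty.2 hx.le]; exact finite_empty⟩⟩
          obtain ⟨v, a, -, b, d⟩ := exists_adj (x := x) (u := x') (y := univ) hx.le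
            (subset_univ _) hinf' (by
              rw [hcompl]; exact compl_infinite_of_fin (hinf z' hz').2 h1) (-(c z'))
          have hv : v ∈ C := mem_of_level hC hz' (h1.trans b) (by rw [lv_trans h1 b, h2, d]; ring)
          exact ⟨v, hv, lt_of_le_of_ne a (by rintro rfl; exact hKx ⟨x, hv, FinDiff.refl x⟩)⟩
        have hhigh : ∃ v ∈ C, v < y := by
          obtain ⟨z', hz', h1, h2⟩ := hy'
          have hinf' : (y \ y').Infinite := by
            intro hfin
            exact hKy ⟨z', hz', h1.trans ⟨by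
              rw [sdiff_eq_empty.2 hy.le]; exact finite_empty, hfin⟩⟩
          obtain ⟨v, -, a, b, d⟩ := exists_adj (x := ∅) (u := y') (y := y) (empty_subset _) hy.le
            (by rw [sdiff_empty]; exact infinite_of_fin (hinf z' hz').1 h1) hinf' (-(c z'))
          have hv : v ∈ C := mem_of_level hC hz' (h1.trans b) (by rw [lv_trans h1 b, h2, d]; ring)
          exact ⟨v, hv, lt_of_le_of_ne a (by rintro rfl; exact hKy ⟨v, hv, FinDiff.refl v⟩)⟩
        obtain ⟨v1, hv1, h1⟩ := hlow
        obtain ⟨v2, hv2, h2⟩ := hhigh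
        obtain ⟨z, hz, h3, h4⟩ := hC.2 x v1 y v2 h1 hv1 h2 hv2 hxy
        have i1 : (z \ x).Infinite := by
          intro hfin
          exact hKx ⟨z, hz, hfin, by rw [sdiff_eq_empty.2 h3]; exact finite_empty⟩
        have i2 : (y \ z).Infinite := by
          intro hfin
          exact hKy ⟨z, hz, by rw [sdiff_eq_empty.2 h4]; exact finite_empty, hfin⟩
        obtain ⟨v, a, b, d, e⟩ := exists_adj h3 h4 i1 i2 (c z)
        exact ⟨v, ⟨z, hz, d, e⟩, a, b⟩

end cross

end Pool.Agent.Y869.CCN
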