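import Pool.Agent.Y869.CCN.Family

set_option autoImplicit false
set_option linter.unusedSectionVars false

open Set Cardinal

namespace Pool.Agent.Y869.CCN

open Pool.Agent.Results.MP_73a625_co.AllInfiniteSets

universe u

variable {X : Type u}

theorem mem_dual {C : Set (Set X)} {B : Set X} : B ∈ dual C ↔ Bᶜ ∈ C := by
  constructor
  · rintro ⟨A, hA, rfl⟩
    rwa [compl_compl]
  · intro h
    exact ⟨Bᶜ, h, (compl_compl B).symm⟩

theorem dual_dual (C : Set (Set X)) : dual (dual C) = C := by
  ext B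
  rw [mem_dual, mem_dual, compl_compl]

theorem antichain_dual {C : Set (Set X)} (h : IsAntichain (· ≤ ·) C) :
    IsAntichain (· ≤ ·) (dual C) := by
  intro A hA B hB hne hle
  rw [mem_dual] at hA hB
  exact h hB hA (fun e => hne (compl_injective e.symm)) (compl_subset_compl.2 hle)

theorem dual_isCrossCut {C : Set (Set X)} (hC : IsCrossCut C) : IsCrossCut (dual C) := by
  refine ⟨⟨antichain_dual hC.1.1, ?_⟩, ?_⟩
  · intro t ht hsub
    have h1 : C ⊆ dual t := by
      intro A hA
      rw [mem_dual]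
      exact hsub (mem_dual.2 (by rwa [compl_compl]))
    have h2 := hC.1.2 (antichain_dual ht) h1
    rw [h2, dual_dual]
  · intro x x' y y' hx hx' hy hy' hxy
    rw [mem_dual] at hx' hy'
    obtain ⟨z, hz, h1, h2⟩ := hC.2 yᶜ y'ᶜ xᶜ x'ᶜ (compl_lt_compl_iff_lt.2 hy) hy'
      (compl_lt_compl_iff_lt.2 hx) hx' (compl_subset_compl.2 hxy)
    refine ⟨zᶜ, mem_dual.2 (by rwa [compl_compl]), ?_, ?_⟩
    · exact subset_compl_comm.1 h2
    · exact compl_subset_comm.1 h1

theorem eq_level_of_finite [Infinite X] {C : Set (Set X)} (hC : IsCrossCut C) {z : Set X}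
    (hz : z ∈ C) (hfin : z.Finite) : C = {A | A.encard = (z.ncard : ℕ∞)} := by
  have hmem : ∀ A : Set X, A.encard = (z.ncard : ℕ∞) → A ∈ C := by
    intro A hA
    have hAf : A.Finite := finite_of_encard_eq_coe hA
    have hAn : A.ncard = z.ncard := by
      rw [ncard, hA]; simp
    refine mem_of_level hC hz ⟨hfin.subset sdiff_subset, hAf.subset sdiff_subset⟩ ?_
    rw [lv_eq (D := z ∪ A) (hfin.union hAf) (fun x hx => Or.inl hx.1) (fun x hx => Or.inr hx.1),
      inter_eq_self_of_subset_left subset_union_right,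
      inter_eq_self_of_subset_left subset_union_left, hAn]
    ring
  apply Subset.antisymm _ hmem
  intro w hw
  rcases lt_trichotomy w.encard (z.ncard : ℕ∞) with h | h | h
  · exfalso
    have hwf : w.Finite := by
      rw [← encard_lt_top_iff]
      exact h.trans (by exact ENat.coe_lt_top _)
    rw [← hwf.cast_ncard_eq] at h
    have h1 : w.ncard < z.ncard := by exact_mod_cast h
    have hinf : ((univ : Set X) \ w).Infinite := by
      rw [← compl_eq_univ_sdiff]
      exact hwf.infinite_compl
    obtain ⟨v, h2, -, h3, h4⟩ := exists_add (u := w) (y := univ) (k := z.ncard - w.ncard)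
      (by rw [hinf.encard_eq]; exact le_top) (subset_univ _)
    have hvf : v.Finite := by
      apply (hwf.union h3.2).subset
      intro x hx
      by_cases h : x ∈ w
      · exact Or.inl h
      · exact Or.inr ⟨hx, h⟩
    have h5 : v ∈ C := by
      apply hmem
      rw [← hvf.cast_ncard_eq]
      rw [lv_eq (D := v ∪ w) (hvf.union hwf) (fun x hx => Or.inr hx.1) (fun x hx => Or.inl hx.1),
        inter_eq_self_of_subset_left subset_union_left,
        inter_eq_self_of_subset_left subset_union_right] at h4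
      have : v.ncard = z.ncard := by omega
      rw [this]
    have hne : w ≠ v := by
      rintro rfl
      rw [lv_self] at h4
      omega
    exact not_lt_of_mem hC hw h5 (lt_of_le_of_ne h2 hne)
  · exact h
  · exfalso
    obtain ⟨t, ht, hk⟩ := exists_subset_encard_eq h.le
    have hne : t ≠ w := by
      rintro rfl
      rw [hk] at h
      exact lt_irrefl _ h
    exact not_lt_of_mem hC (hmem t hk) hw (lt_of_le_of_ne ht hne)

/-- the members of a nontrivial cross-cut are infinite with infinite complement -/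
theorem infinite_of_nontrivial [Infinite X] {C : Set (Set X)} (hC : IsCrossCut C)
    (hn : ¬ IsTrivial C) : ∀ A ∈ C, A.Infinite ∧ Aᶜ.Infinite := by
  intro A hA
  constructor
  · intro hfin
    exact hn ⟨_, Or.inl (eq_level_of_finite hC hA hfin)⟩
  · intro hfin
    have h1 : Aᶜ ∈ dual C := mem_dual.2 (by rwa [compl_compl])
    exact hn ⟨_, Or.inr (eq_level_of_finite (dual_isCrossCut hC) h1 hfin)⟩

theorem nonempty_of_crossCut {C : Set (Set X)} (hC : IsCrossCut C) : ∃ A, A ∈ C := by
  by_contra hcon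
  push Not at hcon
  have h1 := hC.1.2 (t := {∅}) (by
    intro a ha b hb hab
    exact absurd (by rw [mem_singleton_iff.1 ha, mem_singleton_iff.1 hb]) hab)
    (fun A hA => absurd hA (hcon A))
  exact hcon ∅ (by rw [h1]; rfl)

theorem shift_nontrivial [Infinite X] {C : Set (Set X)} (hC : IsCrossCut C)
    (hn : ¬ IsTrivial C) {c : Set X → ℤ} (hc : ∀ z w, FinDiff z w → c z = c w) :
    IsCrossCut (shift C c) ∧ ¬ IsTrivial (shift C c) := by
  have hinf := infinite_of_nontrivial hC hn
  have h1 := shift_isCrossCut hC hinf hc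
  refine ⟨h1, ?_⟩
  obtain ⟨A, hA⟩ := nonempty_of_crossCut h1
  obtain ⟨v, hv, h2, h3⟩ := hA
  exact not_trivial_of ⟨v, hv, h2, h3⟩ (infinite_of_fin (hinf v hv).1 h2)
    (compl_infinite_of_fin (hinf v hv).2 h2)

theorem count_countable' (X : Type u) [Infinite X] :
    #{C : Set (Set X) // IsCrossCut C ∧ ¬ IsTrivial C ∧ ∀ A ∈ C, A.Countable} =
      2 ^ (#X ^ ℵ₀) := by
  rw [← count_countable X]
  congr 1
  have : ∀ C : Set (Set X), (IsCrossCut C ∧ ¬ IsTrivial C ∧ ∀ A ∈ C, A.Countable) ↔
      (IsCrossCut C ∧ ¬ IsTrivial C ∧ ∀ A ∈ C, A.Countable ∧ A.Infinite ∧ Aᶜ.Infinite) := by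
    intro C
    constructor
    · rintro ⟨h1, h2, h3⟩
      exact ⟨h1, h2, fun A hA => ⟨h3 A hA, infinite_of_nontrivial h1 h2 A hA⟩⟩
    · rintro ⟨h1, h2, h3⟩
      exact ⟨h1, h2, fun A hA => (h3 A hA).1⟩
  simp only [this]

/-- `C` and `D` are carried to each other by a permutation of `X`. -/
def Iso (C D : Set (Set X)) : Prop := ∃ σ : Equiv.Perm X, D = (fun A => σ '' A) '' C

theorem iso_refl (C : Set (Set X)) : Iso C C := ⟨1, by ext A; simp⟩

theorem iso_symm {C D : Set (Set X)} (h : Iso C D) : Iso D C := by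
  obtain ⟨σ, rfl⟩ := h
  refine ⟨σ⁻¹, ?_⟩
  rw [image_image]
  ext A
  simp [image_image]

theorem iso_trans {C D E : Set (Set X)} (h : Iso C D) (h' : Iso D E) : Iso C E := by
  obtain ⟨σ, rfl⟩ := h
  obtain ⟨τ, rfl⟩ := h'
  refine ⟨τ * σ, ?_⟩
  rw [image_image]
  ext A
  simp [image_image]

/-- on a countable set there are `2 ^ (2 ^ ℵ₀)` nontrivial cross-cuts no two of which are
isomorphic -/
theorem count_iso (X : Type u) [Infinite X] [Countable X] :
    ∃ T : Set (Set (Set X)), #T = 2 ^ ((2 : Cardinal.{u}) ^ ℵ₀) ∧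
      (∀ C ∈ T, IsCrossCut C ∧ ¬ IsTrivial C) ∧ ∀ C ∈ T, ∀ D ∈ T, Iso C D → C = D := by
  classical
  let S := {C : Set (Set X) // IsCrossCut C ∧ ¬ IsTrivial C}
  let r : Setoid S := ⟨fun C D => Iso C.1 D.1, ⟨fun C => iso_refl _, fun h => iso_symm h,
    fun h h' => iso_trans h h'⟩⟩
  let T : Set (Set (Set X)) := range fun q : Quotient r => (Quotient.out q).1
  have hinj : Function.Injective fun q : Quotient r => (Quotient.out q).1 := by
    intro p q h
    have h1 : Quotient.out p = Quotient.out q := Subtype.ext h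
    rw [← Quotient.out_eq p, ← Quotient.out_eq q, h1]
  refine ⟨T, ?_, ?_, ?_⟩
  · have h1 : #T = #(Quotient r) := mk_range_eq _ hinj
    rw [h1]
    apply le_antisymm
    · have h2 : #(Quotient r) ≤ #S := mk_le_of_injective Quotient.out_injective
      exact h2.trans (count_all X).le
    · -- every cross-cut is given by its class and a permutation
      have h2 : ∀ C : S, ∃ σ : Equiv.Perm X,
          C.1 = (fun A => σ '' A) '' (Quotient.out (Quotient.mk r C)).1 := by
        intro C
        have h3 : Iso (Quotient.out (Quotient.mk r C)).1 C.1 := Quotient.mk_out C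
        exact h3
      choose σ hσ using h2
      have h4 : #S ≤ #(Quotient r × Equiv.Perm X) := by
        refine mk_le_of_injective (f := fun C => (Quotient.mk r C, σ C)) ?_
        intro C D hCD
        rw [Prod.mk.injEq] at hCD
        apply Subtype.ext
        rw [hσ C, hσ D, hCD.1, hCD.2]
      have h5 : #S = 2 ^ ((2 : Cardinal.{u}) ^ ℵ₀) := count_all X
      have h6 : #(Equiv.Perm X) ≤ (2 : Cardinal.{u}) ^ ℵ₀ := by
        have h7 : #(Equiv.Perm X) ≤ #(X → X) := mk_le_of_injective DFunLike.coe_injective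
        refine h7.trans ?_
        rw [← power_def, mk_eq_aleph0 X, aleph0_power_aleph0, two_power_aleph0]
      rw [mk_prod, lift_id, lift_id, h5] at h4
      by_contra hlt
      rw [not_le] at hlt
      have h8 : (ℵ₀ : Cardinal.{u}) ≤ 2 ^ ((2 : Cardinal.{u}) ^ ℵ₀) := by
        refine (cantor _).le.trans ((cantor _).le.trans ?_)
        exact le_rfl
      have h9 : #(Equiv.Perm X) < 2 ^ ((2 : Cardinal.{u}) ^ ℵ₀) := h6.trans_lt (cantor _)
      exact absurd (h4.trans_lt (mul_lt_of_lt h8 hlt h9)) (lt_irrefl _)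
  · rintro C ⟨q, rfl⟩
    exact (Quotient.out q).2
  · rintro C ⟨p, rfl⟩ D ⟨q, rfl⟩ h
    have h1 : Quotient.mk r (Quotient.out p) = Quotient.mk r (Quotient.out q) :=
      Quotient.sound h
    rw [Quotient.out_eq, Quotient.out_eq] at h1
    rw [h1]

end Pool.Agent.Y869.CCN
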